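import Pool.Agent.helper44.EX.Spec

/-!
# Project ex: (MP_70a088_an), module INJ: the iterates are not injective near points of the Julia set
-/

set_option autoImplicit false

open Complex Metric Set Filter Topology MeasureTheory Pool.Agent.helper98.ILF

noncomputable section

namespace EX

theorem INJ_diff (n : ℕ) (c : ℂ) : Differentiable ℂ (ff n c) := by
  unfold ff
  fun_prop

theorem INJ_mem {n : ℕ} (hn : 2 ≤ n) {c x : ℂ} (hx : x ∈ juliaSet (ff n c)) (k : ℕ) :
    ‖(ff n c)^[k] x‖ ≤ 2 + ‖c‖ := by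
  have h1 : x ∈ frontier (filled n c) := juliaSet_subset hn c hx
  have h2 : x ∈ filled n c := by
    have h3 := frontier_subset_closure h1
    rwa [(isClosed_filled n c).closure_eq] at h3
  exact h2 k

theorem INJ (hKO1 : V3.KO1_stmt) (hKO3 : V3.KO3_stmt) : INJ_stmt := by
  obtain ⟨C₁, hC₁, h1⟩ := hKO1
  obtain ⟨C₃, hC₃, h3⟩ := hKO3 (1 / 2) (by norm_num) (by norm_num)
  intro n c x hn hx hacc ρ hρ
  by_contra hcon
  push Not at hcon
  -- all iterates are injective
  have hinj : ∀ t : ℕ, InjOn ((ff n c)^[t]) (ball x ρ) := by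
    intro t
    obtain ⟨t', ht', hi⟩ := hcon t
    intro y hy z hz hyz
    apply hi hy hz
    obtain ⟨s, rfl⟩ := Nat.exists_eq_add_of_le ht'
    rw [add_comm, Function.iterate_add_apply, Function.iterate_add_apply, hyz]
  obtain ⟨β, hβJ, hβx, hβ⟩ := hacc ρ hρ
  have hd : 0 < ‖β - x‖ := norm_pos_iff.2 (sub_ne_zero.2 hβx)
  have hdρ : ‖β - x‖ < ρ := by rwa [mem_ball, dist_eq_norm] at hβ
  set d := ‖β - x‖ with hdd
  have hsub : ball x d ⊆ ball x ρ := ball_subset_ball hdρ.le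
  set M : ℝ := C₁ * (2 * (2 + ‖c‖)) / d with hM
  have hder : ∀ t : ℕ, ‖deriv ((ff n c)^[t]) x‖ ≤ M := by
    intro t
    have hdiff : DifferentiableOn ℂ ((ff n c)^[t]) (ball x d) :=
      ((INJ_diff n c).iterate t).differentiableOn
    have h4 := h1 ((ff n c)^[t]) x d hd hdiff ((hinj t).mono hsub)
    have h5 : (ff n c)^[t] β ∉ (ff n c)^[t] '' ball x d := by
      rintro ⟨y, hy, hyβ⟩
      have h6 := hinj t (hsub hy) hβ hyβ
      rw [h6, mem_ball, dist_eq_norm] at hy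
      exact lt_irrefl _ hy
    have h6 : d * ‖deriv ((ff n c)^[t]) x‖ / C₁ ≤ ‖(ff n c)^[t] β - (ff n c)^[t] x‖ := by
      by_contra hlt
      apply h5
      apply h4
      rw [mem_ball, dist_eq_norm]
      exact not_le.1 hlt
    have h7 : ‖(ff n c)^[t] β - (ff n c)^[t] x‖ ≤ 2 * (2 + ‖c‖) := by
      have := norm_sub_le ((ff n c)^[t] β) ((ff n c)^[t] x)
      have := INJ_mem hn hβJ t
      have := INJ_mem hn hx t
      linarith
    have hC0 : 0 < C₁ := by linarith
    have h8 := h6.trans h7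
    rw [div_le_iff₀ hC0] at h8
    rw [hM, le_div_iff₀ hd]
    linarith
  have hM0 : 0 ≤ M := (norm_nonneg _).trans (hder 0)
  have hbd : ∀ t : ℕ, ∀ y ∈ ball x (ρ / 2), ‖(ff n c)^[t] y‖ ≤ 2 + ‖c‖ + C₃ * ρ * M := by
    intro t y hy
    have hdiff : DifferentiableOn ℂ ((ff n c)^[t]) (ball x ρ) :=
      ((INJ_diff n c).iterate t).differentiableOn
    have hy' : y ∈ ball x ((1 - 1 / 2) * ρ) := by
      rwa [show (1 - 1 / 2 : ℝ) * ρ = ρ / 2 by ring]
    obtain ⟨-, -, h4, -⟩ := (h3 ((ff n c)^[t]) x ρ hρ hdiff (hinj t)).2 y hy'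
    have h5 : ‖y - x‖ ≤ ρ := by
      rw [mem_ball, dist_eq_norm] at hy
      linarith
    have h6 : C₃ * ‖y - x‖ * ‖deriv ((ff n c)^[t]) x‖ ≤ C₃ * ρ * M := by
      have hC0 : 0 ≤ C₃ := by linarith
      exact mul_le_mul (mul_le_mul_of_nonneg_left h5 hC0) (hder t) (norm_nonneg _)
        (mul_nonneg hC0 hρ.le)
    have h7 := norm_add_le ((ff n c)^[t] y - (ff n c)^[t] x) ((ff n c)^[t] x)
    rw [sub_add_cancel] at h7
    have h8 := INJ_mem hn hx t
    linarith
  have heq : ball x (ρ / 2) ⊆ {z | EquicontAt (ff n c) z} := by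
    intro z hz
    rw [mem_ball, dist_eq_norm] at hz
    refine equicontAt_of_bounded (INJ_diff n c) (δ := ρ / 2 - ‖z - x‖)
      (R := 2 + ‖c‖ + C₃ * ρ * M) (by linarith) fun k w hw => hbd k w ?_
    rw [mem_ball, dist_eq_norm] at hw ⊢
    have h9 : ‖w - x‖ ≤ ‖w - z‖ + ‖z - x‖ := by
      have := norm_add_le (w - z) (z - x)
      rwa [sub_add_sub_cancel] at this
    linarith
  have hxF : x ∈ fatouSet (ff n c) :=
    interior_maximal heq isOpen_ball (mem_ball_self (half_pos hρ))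
  exact hx hxF

end EX
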